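import Pool.Agent.Helper948.Conj.MachRun

set_option autoImplicit false

/-! Short factorizations: after the extra word, a bounded prefix always has a factorization with
a bounded excess of factors. -/

namespace Pool.Agent.H34Z.Conj

open Pool.Agent.Helper948.Conj

section Frame

variable {α C : Type} (F : Frm α C)

theorem br2 (c : C) (hc : c ∈ F.cells) (y : List α) (hy : F.Y y)
    (hn : ∀ d, F.R c d → y ≠ F.T d) : ∃ n, n ≤ 2 ∧ Fac F.Y n (F.p c ++ y) := by
  have hq : ∀ b ∈ F.cells, F.Y (F.p c ++ F.q b) := by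
    intro b hb
    refine Frm.Y.h0 c _ hc (Frm.U.q b hb) ?_ ?_
    · rw [Frm.q_cons]; simp
    · intro d _ h
      rw [Frm.q_cons, Frm.T_cons] at h
      have := (F.inj _ _ _ _ (List.cons.inj h).1).2
      have := F.ho
      omega
  cases hy with
  | eta => exact ⟨1, by omega, Fac.one (Frm.Y.h0 c _ hc Frm.U.eta (by simp) hn)⟩
  | tok d hd =>
    refine ⟨1, by omega, Fac.one (Frm.Y.h0 c _ hc (Frm.U.tok d hd) ?_ hn)⟩
    rw [Frm.T_cons]; simp
  | base _ hy =>
    refine ⟨1, by omega, Fac.one (Frm.Y.h0 c _ hc (Frm.U.base y hy) ?_ hn)⟩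
    obtain ⟨_, _, _, _, _, h⟩ := F.hb y hy
    rw [h]; simp
  | f1 e u he hu => exact ⟨1, by omega, Fac.one (Frm.Y.h1 c e u hc he hu)⟩
  | f2 e f u he hf hu =>
    refine ⟨2, by omega, ?_⟩
    have := (Fac.one (Frm.Y.h1 c e [] hc he Frm.U.nil)).append (Fac.one (Frm.Y.f1 f u hf hu))
    simpa using this
  | h0 b u hb hu _ _ =>
    refine ⟨2, by omega, ?_⟩
    have := (Fac.one (hq b hb)).append (Fac.one (Frm.Y.f1 b u hb hu))
    rw [Frm.p_eq F b]
    simpa using this
  | h1 b e u hb he hu =>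
    refine ⟨2, by omega, ?_⟩
    have := (Fac.one (hq b hb)).append (Fac.one (Frm.Y.f2 b e u hb he hu))
    rw [Frm.p_eq F b]
    simpa using this

theorem dich2 (ys : List (List α)) : ∀ c ∈ F.cells, (∀ y ∈ ys, F.Y y) →
    (∃ l : List C, F.Leg c l ∧ ys = l.map F.T) ∨
      ∃ n, n ≤ ys.length + 1 ∧ Fac F.Y n (F.p c ++ ys.flatten) := by
  induction ys with
  | nil => intro c _ _; exact Or.inl ⟨[], trivial, rfl⟩
  | cons y ys ih =>
    intro c hc hys
    by_cases h : ∃ d, F.R c d ∧ y = F.T d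
    · obtain ⟨d, hd, rfl⟩ := h
      rcases ih d (F.hR c d hd) (fun z hz => hys z (by simp [hz])) with ⟨l, h1, h2⟩ | ⟨n, h1, h2⟩
      · exact Or.inl ⟨d :: l, ⟨hd, h1⟩, by simp [h2]⟩
      · right
        refine ⟨n + 1, by simpa using h1, ?_⟩
        rw [List.flatten_cons, ← List.append_assoc, Frm.p_T, List.append_assoc]
        exact Fac.cons (Frm.Y.base _ (F.hm c d hc hd)) h2
    · right
      push Not at h
      obtain ⟨n, h1, h2⟩ := br2 F c hc y (hys y (by simp)) h
      have h3 : Fac F.Y ys.length ys.flatten := Fac.flatten (fun z hz => hys z (by simp [hz]))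
      refine ⟨n + ys.length, by simp; omega, ?_⟩
      rw [List.flatten_cons, ← List.append_assoc]
      exact h2.append h3

theorem leg_getD (d : C) (l : List C) : ∀ c, F.Leg c l → ∀ i, i < l.length →
    F.R ((c :: l).getD i d) ((c :: l).getD (i + 1) d) := by
  induction l with
  | nil => intro c _ i hi; simp at hi
  | cons e l ih =>
    intro c h i hi
    cases i with
    | zero => exact h.1
    | succ i => exact ih e h.2 i (by simpa using hi)

end Frame

section Blocks

variable {K S : Type} (M : Blk K S)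

theorem blocks_bdd (s : ℕ → K × ℕ) (n : ℕ) (h0 : (s 0).2 = 0)
    (hs : ∀ i, i < n → M.R (s i) (s (i + 1))) :
    (∀ b, (b + 1) * M.W ≤ n → M.rho (s (b * M.W)).1 (s ((b + 1) * M.W)).1) ∧
      ∀ b x, x < M.W → b * M.W + x ≤ n → s (b * M.W + x) = ((s (b * M.W)).1, x) := by
  have key : ∀ b, (s (b * M.W)).2 = 0 → ∀ x, x < M.W → b * M.W + x ≤ n →
      s (b * M.W + x) = ((s (b * M.W)).1, x) := by
    intro b hb x
    induction x with
    | zero => intro _ _; rw [add_zero, ← hb]
    | succ x ih =>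
      intro hx hn
      have h1 := ih (by omega) (by omega)
      have h2 := hs (b * M.W + x) (by omega)
      rw [h1] at h2
      obtain ⟨_, ⟨h3, h4⟩ | ⟨h3, _⟩⟩ := h2
      · rw [← add_assoc]
        exact Prod.ext h3.symm h4
      · simp only at h3
        omega
  have key2 : ∀ b, (b + 1) * M.W ≤ n → (s (b * M.W)).2 = 0 → (s ((b + 1) * M.W)).2 = 0 ∧
      M.rho (s (b * M.W)).1 (s ((b + 1) * M.W)).1 := by
    intro b hn hb
    have hW := M.Wpos
    have e : b * M.W + (M.W - 1) + 1 = (b + 1) * M.W := by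
      rw [add_mul, one_mul]; omega
    have h1 := key b hb (M.W - 1) (by omega) (by omega)
    have h2 := hs (b * M.W + (M.W - 1)) (by omega)
    rw [e, h1] at h2
    obtain ⟨h5, ⟨h3, h4⟩ | ⟨h3, h4, h6⟩⟩ := h2
    · simp only at h4
      omega
    · exact ⟨h4, h6⟩
  have hz : ∀ b, b * M.W ≤ n → (s (b * M.W)).2 = 0 := by
    intro b
    induction b with
    | zero => intro _; rw [zero_mul, h0]
    | succ b ih =>
      intro hn
      have : b * M.W ≤ (b + 1) * M.W := Nat.mul_le_mul_right _ (by omega)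
      exact (key2 b hn (ih (by omega))).1
  refine ⟨fun b hb => ?_, fun b x hx hn => key b (hz b (by omega)) x hx hn⟩
  have : b * M.W ≤ (b + 1) * M.W := Nat.mul_le_mul_right _ (by omega)
  exact (key2 b hb (hz b (by omega))).2

variable {α : Type} (lt : K × ℕ → ℕ → α) (eta : α)
  (inj : ∀ c i d j, lt c i = lt d j → c = d ∧ i = j) (ne : ∀ c i, lt c i ≠ eta)

/-- a path reaching an exit gives a factorization whose number of factors is read off from the
weight -/
theorem path_exit (Xs : ℕ → K) (s : ℕ → K × ℕ) (h0 : s 0 = (M.ini, 0))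
    (hs : ∀ b x, x < M.W → s (b * M.W + x) = (Xs b, x))
    (b : ℕ) (q : S) (w : ℤ) (h : M.Path Xs b q w) (he : M.ex (Xs b) q) :
    ∃ n : ℕ, (n : ℤ) = b * M.W + 1 + w ∧ Fac (M.frm lt eta inj ne).Y n
      ((M.frm lt eta inj ne).p (M.frm lt eta inj ne).star ++
        (M.frm lt eta inj ne).Tl ((List.range (b * M.W + 1)).map fun i => s (i + 1))) := by
  set F := M.frm lt eta inj ne with hF
  obtain ⟨h1, n, hn, h2⟩ := M.path_fac lt eta inj ne Xs s hs b q w h
  have hW : M.W = M.G + 2 := rfl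
  have hL1 := M.tq_lt q 0 (Nat.zero_le _)
  have hL0 : 0 < M.L := by omega
  refine ⟨n + 1, ?_, ?_⟩
  · push_cast
    linarith
  · rw [F.txt_good s h0]
    change Fac F.Y (n + 1) (F.txt s (M.tq M.m1) ((b * M.W + 1 + 1) * M.L - M.tq M.m1))
    have e1 : (b * M.W + 1 + 1) * M.L - M.tq M.m1 =
        (b * M.W * M.L + M.tq q - M.tq M.m1) + (2 * M.L - M.tq q) := by
      have : (b * M.W + 1 + 1) * M.L = b * M.W * M.L + 2 * M.L := by ring
      omega
    rw [e1, F.txt_add]
    refine h2.append (Fac.one ?_)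
    rw [show M.tq M.m1 + (b * M.W * M.L + M.tq q - M.tq M.m1) = b * M.W * M.L + M.tq q by omega]
    have e2 : F.txt s (b * M.W * M.L + M.tq q) (2 * M.L - M.tq q) =
        wt lt M.L (fun x => (Xs b, x)) (M.tq q) (2 * M.L - M.tq q) := by
      have e3 := Blk.wt_two lt M.L s (b * M.W) (M.tq q) M.L (by omega) le_rfl
      have e4 := Blk.wt_two lt M.L (fun x => (Xs b, x)) 0 (M.tq q) M.L (by omega) le_rfl
      rw [show M.L + M.L - M.tq q = 2 * M.L - M.tq q by omega] at e3 e4
      rw [zero_mul, zero_add] at e4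
      rw [e4]
      have e5 : F.txt s (b * M.W * M.L + M.tq q) (2 * M.L - M.tq q) =
        wt lt M.L s (b * M.W * M.L + M.tq q) (2 * M.L - M.tq q) := rfl
      rw [e5, e3]
      have e6 := hs b 0 M.Wpos
      rw [add_zero] at e6
      rw [e6, hs b 1 (by omega)]
    rw [e2]
    exact Frm.Y.base _ (Blk.Base.exit (Xs b) q he)

end Blocks

section Machine

variable {K : Type} (m : Mach K) {α : Type} (lt : (K × Option Bool) × ℕ → ℕ → α) (eta : α)
  (inj : ∀ c i d j, lt c i = lt d j → c = d ∧ i = j) (ne : ∀ c i, lt c i ≠ eta)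

theorem legal_short (l : List ((K × Option Bool) × ℕ)) (hl : l.length = 2 * m.blk.W + 1)
    (hleg : (m.blk.frm lt eta inj ne).Leg (m.blk.frm lt eta inj ne).star l) :
    ∃ n, n ≤ 2 * m.blk.W + 1 + m.G ∧ Fac (m.blk.frm lt eta inj ne).Y n
      ((m.blk.frm lt eta inj ne).p (m.blk.frm lt eta inj ne).star ++
        (m.blk.frm lt eta inj ne).Tl l) := by
  set F := m.blk.frm lt eta inj ne with hF
  let f : ℕ → (K × Option Bool) × ℕ := fun i => (F.star :: l).getD i F.star
  have hf0 : f 0 = (m.blk.ini, 0) := rfl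
  have hf : ∀ i, i < 2 * m.blk.W + 1 → m.blk.R (f i) (f (i + 1)) := fun i hi =>
    leg_getD F F.star l F.star hleg i (by omega)
  obtain ⟨k1, k2⟩ := blocks_bdd m.blk f (2 * m.blk.W + 1) (by rw [hf0]) hf
  let Xs : ℕ → K × Option Bool := fun b => (f (b * m.blk.W)).1
  have hX0 : Xs 0 = (m.ini, none) := by
    change (f (0 * m.blk.W)).1 = _
    rw [zero_mul, hf0]
    rfl
  have hW := m.blk.Wpos
  have hX1 : (Xs 1).2 = none := by
    have h1 : m.blk.rho (Xs 0) (Xs (0 + 1)) := k1 0 (by omega)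
    rcases h1 with ⟨_, _, h⟩ | ⟨h, _⟩
    · rw [hX0] at h
      exact absurd rfl h
    · exact h
  have hs : ∀ b x, x < m.blk.W → m.blk.cellseq Xs (b * m.blk.W + x) = (Xs b, x) :=
    fun b x hx => m.blk.cellseq_eq Xs b x hx
  have hsf : ∀ i, i ≤ 2 * m.blk.W + 1 → m.blk.cellseq Xs i = f i := by
    intro i hi
    have e : i = i / m.blk.W * m.blk.W + i % m.blk.W := by
      have := Nat.div_add_mod i m.blk.W
      rw [mul_comm] at this
      exact this.symm
    have hx := Nat.mod_lt i hW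
    rw [e, hs _ _ hx, k2 _ _ hx (by omega)]
  have h1 : m.blk.Path Xs (0 + 1) (some (true, false, false))
      (0 + (0 : ℕ) - (m.b m.ini false + 1 : ℕ)) := by
    refine Blk.Path.step 0 none 0 0 (m.b m.ini false + 1) _ Blk.Path.start ?_
    change _ ∈ m.del (Xs 0) none
    rw [hX0]
    simp [Mach.del]
  have h2 := Blk.Path.step (M := m.blk) (0 + 1) _ _ (m.r (Xs 1).1 false) 0
    (some (true, true, false)) h1 (by
      change _ ∈ m.del (Xs 1) _
      have : Xs 1 = ((Xs 1).1, none) := Prod.ext rfl hX1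
      rw [this]
      simp [Mach.del])
  obtain ⟨n, hn, h3⟩ := path_exit m.blk lt eta inj ne Xs (m.blk.cellseq Xs)
    (by rw [hsf 0 (by omega), hf0]) hs _ _ _ h2 (by
      change Mach.ex (Xs (0 + 1 + 1)) (some (true, true, false))
      simp [Mach.ex])
  have hr := m.hr (Xs 1).1 false
  refine ⟨n, ?_, ?_⟩
  · push_cast at hn
    omega
  · have e : (List.range ((0 + 1 + 1) * m.blk.W + 1)).map (fun i => m.blk.cellseq Xs (i + 1)) = l := by
      apply List.ext_getElem
      · simp [hl]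
      · intro i h4 h5
        simp only [List.getElem_map, List.getElem_range]
        rw [hsf (i + 1) (by omega)]
        change (F.star :: l).getD (i + 1) F.star = _
        rw [List.getD_cons_succ, List.getD_eq_getElem _ _ h5]
    rw [e] at h3
    exact h3

/-- bounded excess -/
theorem short_fac (z : List α) (hz : Fac (m.blk.frm lt eta inj ne).Y (2 * m.blk.W + 1) z) :
    ∃ j, j ≤ 2 * m.blk.W + 1 + 1 + m.G ∧ Fac (m.blk.frm lt eta inj ne).Y j
      ((eta :: (m.blk.frm lt eta inj ne).p (m.blk.frm lt eta inj ne).star) ++ z) := by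
  set F := m.blk.frm lt eta inj ne with hF
  obtain ⟨ys, h1, h2, rfl⟩ := hz.exists_list
  have hG := m.hb m.ini false
  have main : ∃ n, n ≤ 2 * m.blk.W + 1 + m.G ∧ Fac F.Y n (F.p F.star ++ ys.flatten) := by
    rcases dich2 F ys F.star F.hstar h1 with ⟨l, h3, rfl⟩ | ⟨n, h3, h4⟩
    · exact legal_short m lt eta inj ne l (by simpa using h2) h3
    · exact ⟨n, by omega, h4⟩
  obtain ⟨n, h3, h4⟩ := main
  exact ⟨n + 1, by omega, Fac.cons (y := [F.eta]) Frm.Y.eta h4⟩

end Machine

end Pool.Agent.H34Z.Conj
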