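import Pool.Agent.Helper948.Conj.Frame

set_option autoImplicit false

/-! Padding: replacing `Y` by the union of its first powers turns a solution by a tail of the
powers of `Y` into a finite solution. -/

namespace Pool.Agent.H34Z.Conj

open Pool.Agent.Helper948.Conj

section Gen

variable {α : Type}

theorem fac_split {Y : List α → Prop} (i : ℕ) : ∀ {j : ℕ} {z : List α}, Fac Y (i + j) z →
    ∃ z1 z2, z = z1 ++ z2 ∧ Fac Y i z1 ∧ Fac Y j z2 := by
  induction i with
  | zero =>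
    intro j z h
    rw [zero_add] at h
    exact ⟨[], z, rfl, Fac.nil, h⟩
  | succ i ih =>
    intro j z h
    rw [show i + 1 + j = (i + j) + 1 by omega] at h
    generalize hm : i + j = m at h
    cases h with
    | @cons y w _ hy hw =>
      subst hm
      obtain ⟨z1, z2, rfl, h1, h2⟩ := ih hw
      exact ⟨y ++ z1, z2, by simp, Fac.cons hy h1, h2⟩

theorem fac_one_iff {Y : List α → Prop} {z : List α} (h : Fac Y 1 z) : Y z := by
  cases h with
  | @cons y w _ hy hw =>
    cases hw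
    simpa using hy

theorem fac_last {Y : List α → Prop} {n : ℕ} {z : List α} (h : Fac Y (n + 1) z) :
    ∃ z' y, z = z' ++ y ∧ Fac Y n z' ∧ Y y := by
  obtain ⟨z1, z2, rfl, h1, h2⟩ := fac_split n h
  exact ⟨z1, z2, rfl, h1, fac_one_iff h2⟩

theorem fac_length {Y : List α → Prop} {L : ℕ} (hL : ∀ y, Y y → y.length ≤ L) {n : ℕ}
    {z : List α} (h : Fac Y n z) : z.length ≤ n * L := by
  induction h with
  | nil => simp
  | @cons y w n hy _ ih =>
    have := hL y hy
    rw [List.length_append, Nat.succ_mul]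
    omega

theorem fac_finite (Y : List (List α)) (n : ℕ) : {z | Fac (fun y => y ∈ Y) n z}.Finite := by
  induction n with
  | zero =>
    refine (Set.finite_singleton ([] : List α)).subset ?_
    intro z hz
    cases hz
    rfl
  | succ n ih =>
    refine (Set.Finite.image2 (fun a b => a ++ b) (List.finite_toSet Y) ih).subset ?_
    intro z hz
    cases hz with
    | @cons y w _ hy hw => exact ⟨y, hy, w, hw, rfl⟩

/-- the products of at least one and at most `t + 1` words of `Y` -/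
def powL (Y : List (List α)) : ℕ → List (List α)
  | 0 => Y
  | t + 1 => Y ++ Y.flatMap fun y => (powL Y t).map fun w => y ++ w

theorem mem_powL (Y : List (List α)) (t : ℕ) : ∀ w, w ∈ powL Y t ↔
    ∃ i, 1 ≤ i ∧ i ≤ t + 1 ∧ Fac (fun y => y ∈ Y) i w := by
  induction t with
  | zero =>
    intro w
    constructor
    · intro h
      exact ⟨1, le_rfl, le_rfl, Fac.one h⟩
    · rintro ⟨i, h1, h2, h3⟩
      obtain rfl : i = 1 := by omega
      exact fac_one_iff h3
  | succ t ih =>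
    intro w
    simp only [powL, List.mem_append, List.mem_flatMap, List.mem_map]
    constructor
    · rintro (h | ⟨y, hy, v, hv, rfl⟩)
      · exact ⟨1, le_rfl, by omega, Fac.one h⟩
      · obtain ⟨i, h1, h2, h3⟩ := (ih v).1 hv
        exact ⟨i + 1, by omega, by omega, Fac.cons hy h3⟩
    · rintro ⟨i, h1, h2, h3⟩
      by_cases hi : i = 1
      · subst hi
        exact Or.inl (fac_one_iff h3)
      · right
        obtain ⟨i, rfl⟩ : ∃ j, i = j + 1 := ⟨i - 1, by omega⟩
        cases h3 with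
        | @cons y v _ hy hv => exact ⟨y, hy, v, (ih v).2 ⟨i, by omega, by omega, hv⟩, rfl⟩

theorem fac_powL_elim (Y : List (List α)) (t : ℕ) {n : ℕ} {z : List α}
    (h : Fac (fun y => y ∈ powL Y t) n z) :
    ∃ a, n ≤ a ∧ a ≤ (t + 1) * n ∧ Fac (fun y => y ∈ Y) a z := by
  induction h with
  | nil => exact ⟨0, le_rfl, by simp, Fac.nil⟩
  | @cons y w n hy _ ih =>
    obtain ⟨a, h1, h2, h3⟩ := ih
    obtain ⟨i, k1, k2, k3⟩ := (mem_powL Y t y).1 hy
    refine ⟨i + a, by omega, ?_, k3.append h3⟩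
    rw [Nat.mul_succ]
    omega

theorem fac_powL_intro (Y : List (List α)) (t : ℕ) (n : ℕ) : ∀ {a : ℕ} {z : List α},
    n ≤ a → a ≤ (t + 1) * n → Fac (fun y => y ∈ Y) a z → Fac (fun y => y ∈ powL Y t) n z := by
  induction n with
  | zero =>
    intro a z _ h2 h3
    obtain rfl : a = 0 := by omega
    cases h3
    exact Fac.nil
  | succ n ih =>
    intro a z h1 h2 h3
    rw [Nat.mul_succ] at h2
    have hn : n ≤ (t + 1) * n := Nat.le_mul_of_pos_left _ (by omega)
    obtain ⟨i, j, rfl, k1, k2, k3, k4⟩ : ∃ i j, a = i + j ∧ 1 ≤ i ∧ i ≤ t + 1 ∧ n ≤ j ∧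
        j ≤ (t + 1) * n := by
      by_cases h : a ≤ (t + 1) * n + 1
      · exact ⟨1, a - 1, by omega, le_rfl, by omega, by omega, by omega⟩
      · exact ⟨a - (t + 1) * n, (t + 1) * n, by omega, by omega, by omega, hn, le_rfl⟩
    obtain ⟨z1, z2, rfl, m1, m2⟩ := fac_split i h3
    exact Fac.cons ((mem_powL Y t z1).2 ⟨i, k1, k2, m1⟩) (ih k3 k4 m2)

/-- the key step: one power of the padded set absorbs the extra word -/
theorem absorb (Y : List (List α)) (hne : ∀ y ∈ Y, y ≠ []) (x0 : List α) (K K' c : ℕ)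
    (H1 : ∀ z, Fac (fun y => y ∈ Y) K z → ∃ j, K + 1 ≤ j ∧ Fac (fun y => y ∈ Y) j (x0 ++ z))
    (H2 : ∀ z, Fac (fun y => y ∈ Y) K' z →
      ∃ j, j ≤ K' + 1 + c ∧ Fac (fun y => y ∈ Y) j (x0 ++ z)) :
    ∃ n, ∀ z, Fac (fun y => y ∈ powL Y (c + 1)) n z →
      Fac (fun y => y ∈ powL Y (c + 1)) (n + 1) (x0 ++ z) := by
  have hL : ∀ y, y ∈ Y → y.length ≤ Y.flatten.length := fun y hy =>
    (List.sublist_flatten_of_mem hy).length_le
  set D := x0.length + K * Y.flatten.length with hD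
  refine ⟨K + K' + D, fun z hz => ?_⟩
  set n := K + K' + D with hn
  obtain ⟨a, h1, h2, h3⟩ := fac_powL_elim Y (c + 1) hz
  have e1 : (c + 1 + 1) * (n + 1) = (c + 1 + 1) * n + (c + 2) := by ring
  have e2 : (c + 1 + 1) * n = c * n + 2 * n := by ring
  by_cases hcase : a + D ≤ (c + 1 + 1) * (n + 1)
  · obtain ⟨b, rfl⟩ : ∃ b, a = K + b := ⟨a - K, by omega⟩
    obtain ⟨z1, z2, rfl, m1, m2⟩ := fac_split K h3
    obtain ⟨j, k1, k2⟩ := H1 z1 m1
    have k3 := k2.length_le hne
    have k4 := fac_length hL m1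
    rw [List.length_append] at k3
    have k5 := k2.append m2
    rw [List.append_assoc] at k5
    exact fac_powL_intro Y (c + 1) (n + 1) (by omega) (by omega) k5
  · obtain ⟨b, rfl⟩ : ∃ b, a = K' + b := ⟨a - K', by omega⟩
    obtain ⟨z1, z2, rfl, m1, m2⟩ := fac_split K' h3
    obtain ⟨j, k1, k2⟩ := H2 z1 m1
    have k5 := k2.append m2
    rw [List.append_assoc] at k5
    exact fac_powL_intro Y (c + 1) (n + 1) (by omega) (by omega) k5

/-- a finite solution -/
theorem finite_solution (Y : List (List α)) (y0 : List α) (hy0 : y0 ∈ Y) (x0 : List α) (n : ℕ)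
    (h : ∀ z, Fac (fun y => y ∈ Y) n z → Fac (fun y => y ∈ Y) (n + 1) (x0 ++ z)) :
    {z | Fac (fun y => y ∈ Y) n z}.Finite ∧ {z | Fac (fun y => y ∈ Y) n z}.Nonempty ∧
      {w | ∃ x ∈ x0 :: Y, ∃ z ∈ {z | Fac (fun y => y ∈ Y) n z}, w = x ++ z} =
      {w | ∃ z ∈ {z | Fac (fun y => y ∈ Y) n z}, ∃ y ∈ Y, w = z ++ y} := by
  refine ⟨fac_finite Y n, ?_, ?_⟩
  · have := Fac.flatten (Y := fun y => y ∈ Y) (l := List.replicate n y0) (by
      intro y hy
      rw [List.eq_of_mem_replicate hy]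
      exact hy0)
    rw [List.length_replicate] at this
    exact ⟨_, this⟩
  · ext w
    constructor
    · rintro ⟨x, hx, z, hz, rfl⟩
      have h1 : Fac (fun y => y ∈ Y) (n + 1) (x ++ z) := by
        rcases List.mem_cons.1 hx with rfl | hx
        · exact h z hz
        · exact Fac.cons hx hz
      obtain ⟨z', y, e, h2, h3⟩ := fac_last h1
      exact ⟨z', h2, y, h3, e⟩
    · rintro ⟨z, hz, y, hy, rfl⟩
      have h2 := Fac.append hz (Fac.one (Y := fun y => y ∈ Y) hy)
      generalize z ++ y = v at h2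
      cases h2 with
      | @cons x w _ hx hw => exact ⟨x, List.mem_cons_of_mem _ hx, w, hw, rfl⟩

/-- a solution of the padded inclusion gives a solution of the original inclusion -/
theorem unpad (Y : List (List α)) (x0 : List α) (t : ℕ) (Z : Set (List α)) (hne : Z.Nonempty)
    (hZ : ∀ x ∈ x0 :: powL Y t, ∀ z ∈ Z, ∃ z' ∈ Z, ∃ y ∈ powL Y t, x ++ z = z' ++ y) :
    ∃ Z' : Set (List α), Z'.Nonempty ∧
      ∀ x ∈ x0 :: Y, ∀ z ∈ Z', ∃ z' ∈ Z', ∃ y ∈ Y, x ++ z = z' ++ y := by
  refine ⟨{w | ∃ z ∈ Z, ∃ a v, Fac (fun y => y ∈ Y) a v ∧ w = z ++ v}, ?_, ?_⟩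
  · obtain ⟨z, hz⟩ := hne
    exact ⟨z, z, hz, 0, [], Fac.nil, by simp⟩
  · rintro x hx _ ⟨z, hz, a, v, hv, rfl⟩
    have hx' : x ∈ x0 :: powL Y t := by
      rcases List.mem_cons.1 hx with rfl | hx
      · exact List.mem_cons_self
      · exact List.mem_cons_of_mem _ ((mem_powL Y t x).2 ⟨1, le_rfl, by omega, Fac.one hx⟩)
    obtain ⟨z', hz', y', hy', e⟩ := hZ x hx' z hz
    obtain ⟨i, h1, _, h3⟩ := (mem_powL Y t y').1 hy'
    have h4 := h3.append hv
    obtain ⟨b, hb⟩ : ∃ b, i + a = b + 1 := ⟨i + a - 1, by omega⟩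
    rw [hb] at h4
    obtain ⟨v', y, e2, h5, h6⟩ := fac_last h4
    refine ⟨z' ++ v', ⟨z', hz', b, v', h5, rfl⟩, y, h6, ?_⟩
    rw [← List.append_assoc, e, List.append_assoc, e2, List.append_assoc]

end Gen

open Primrec in
theorem powL_pr : Primrec₂ (fun (Y : List (List ℕ)) (t : ℕ) => powL Y t) := by
  have h0 : Primrec₂ (fun (a : (List (List ℕ) × (ℕ × List (List ℕ))) × List ℕ) (w : List ℕ) =>
      a.2 ++ w) := (list_append.comp (snd.comp fst) snd).to₂
  have h1 : Primrec (fun (a : (List (List ℕ) × (ℕ × List (List ℕ))) × List ℕ) => a.1.2.2) :=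
    snd.comp (snd.comp fst)
  have h2 : Primrec₂ (fun (a : List (List ℕ) × (ℕ × List (List ℕ))) (y : List ℕ) =>
      a.2.2.map fun w => y ++ w) := (list_map h1 h0).to₂
  have h3 : Primrec (fun (a : List (List ℕ) × (ℕ × List (List ℕ))) =>
      a.1.flatMap fun y => a.2.2.map fun w => y ++ w) := list_flatMap fst h2
  have h : Primrec₂ (fun (Y : List (List ℕ)) (p : ℕ × List (List ℕ)) =>
      Y ++ Y.flatMap fun y => p.2.map fun w => y ++ w) := (list_append.comp fst h3).to₂
  have h4 := Primrec.nat_rec (f := fun Y : List (List ℕ) => Y) Primrec.id h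
  refine h4.of_eq ?_
  intro Y t
  induction t with
  | zero => rfl
  | succ t ih =>
    simp only [powL]
    rw [← ih]

end Pool.Agent.H34Z.Conj
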