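import Pool.Agent.Helper948.Conj.Final
import Pool.Agent.H34Z.Conj.Pad
import Pool.Agent.H34Z.Conj.Low

set_option autoImplicit false

/-! The reduction for finite solutions. -/

namespace Pool.Agent.H34Z.Conj

open Pool.Agent.Helper948.Conj Pool.Agent.Helper948.Erode

section Lists

variable (D : Dat) (N : ℕ)

/-- the extra word -/
def x0 : List ℕ := 0 :: D.po N ((none, none), 0)

/-- the padded set `Y` -/
def YP : List (List ℕ) := powL (D.YL N) (D.Gn N + 1)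

/-- the padded set `X` -/
def XP : List (List ℕ) := x0 D N :: YP D N

theorem Y_eq : (fun y => y ∈ D.YL N) = (D.fr N).Y := by
  funext y
  exact propext (D.mem_YL N y)

theorem x0_eq : x0 D N = (D.fr N).eta :: (D.fr N).p (D.fr N).star := by
  unfold x0
  rw [D.po_eq]
  rfl

theorem letters_YP (w : List ℕ) (h : w ∈ YP D N) : w ≠ [] ∧ ∀ a ∈ w, a < D.kn N := by
  obtain ⟨i, h1, _, h3⟩ := (mem_powL _ _ w).1 h
  rw [Y_eq] at h3
  refine ⟨?_, fac_letters D N h3⟩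
  rintro rfl
  have := h3.length_le (D.fr N).Y_ne
  simp at this
  omega

theorem letters_XP (w : List ℕ) (h : w ∈ XP D N) : w ≠ [] ∧ ∀ a ∈ w, a < D.kn N := by
  rcases List.mem_cons.1 h with rfl | h
  · exact letters_XL D N _ List.mem_cons_self
  · exact letters_YP D N w h

theorem fac_letters_YP {n : ℕ} {z : List ℕ} (h : Fac (fun y => y ∈ YP D N) n z) :
    ∀ a ∈ z, a < D.kn N := by
  obtain ⟨a, _, _, h3⟩ := fac_powL_elim _ _ h
  rw [Y_eq] at h3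
  exact fac_letters D N h3

/-- no run: a finite solution over the alphabet -/
theorem exists_finite_solution (h : ¬ (D.mach N).Run) : ∃ Z : Set (List ℕ), Z.Finite ∧
    Z.Nonempty ∧ (∀ z ∈ Z, ∀ a ∈ z, a < D.kn N) ∧
    {w | ∃ x ∈ XP D N, ∃ z ∈ Z, w = x ++ z} = {w | ∃ z ∈ Z, ∃ y ∈ YP D N, w = z ++ y} := by
  obtain ⟨K, hK⟩ := (D.mach N).solution D.code 0 D.code_inj D.code_ne h
  have H1 : ∀ z, Fac (fun y => y ∈ D.YL N) K z →
      ∃ j, K + 1 ≤ j ∧ Fac (fun y => y ∈ D.YL N) j (x0 D N ++ z) := by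
    rw [Y_eq]
    intro z hz
    have hm : x0 D N ++ z ∈ {w | ∃ x, (D.fr N).X x ∧
        ∃ z, (∃ n, K ≤ n ∧ Fac (D.fr N).Y n z) ∧ w = x ++ z} :=
      ⟨x0 D N, Or.inr (x0_eq D N), z, ⟨K, le_rfl, hz⟩, rfl⟩
    have hK' : {w | ∃ x, (D.fr N).X x ∧
        ∃ z, (∃ n, K ≤ n ∧ Fac (D.fr N).Y n z) ∧ w = x ++ z} =
      {w | ∃ z, (∃ n, K ≤ n ∧ Fac (D.fr N).Y n z) ∧ ∃ y, (D.fr N).Y y ∧ w = z ++ y} := hK
    rw [hK'] at hm
    obtain ⟨z', ⟨n, hn, hz'⟩, y, hy, e⟩ := hm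
    rw [e]
    exact ⟨n + 1, by omega, hz'.append (Fac.one hy)⟩
  have H2 : ∀ z, Fac (fun y => y ∈ D.YL N) (2 * (D.mach N).blk.W + 1) z →
      ∃ j, j ≤ 2 * (D.mach N).blk.W + 1 + 1 + D.Gn N ∧
        Fac (fun y => y ∈ D.YL N) j (x0 D N ++ z) := by
    rw [Y_eq, x0_eq]
    intro z hz
    exact short_fac (D.mach N) D.code 0 D.code_inj D.code_ne z hz
  obtain ⟨n, hn⟩ := absorb (D.YL N) (mem_YL_ne D N) (x0 D N) K _ _ H1 H2
  have hy0 : [0] ∈ YP D N :=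
    (mem_powL _ _ _).2 ⟨1, le_rfl, by omega, Fac.one List.mem_cons_self⟩
  obtain ⟨h1, h2, h3⟩ := finite_solution (YP D N) [0] hy0 (x0 D N) n hn
  exact ⟨_, h1, h2, fun z hz => fac_letters_YP D N hz, h3⟩

/-- a run: no solution -/
theorem no_solution_pad (h : (D.mach N).Run) (Z : Set (List ℕ)) (hne : Z.Nonempty)
    (hZ : ∀ x ∈ XP D N, ∀ z ∈ Z, ∃ z' ∈ Z, ∃ y ∈ YP D N, x ++ z = z' ++ y) : False := by
  obtain ⟨Z', h1, h2⟩ := unpad (D.YL N) (x0 D N) (D.Gn N + 1) Z hne hZ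
  exact no_solution_lists D N h Z' h1 h2

theorem YP_pr : Primrec (YP D) :=
  powL_pr.comp D.YL_pr (Primrec.succ.comp D.Gn_pr)

theorem XP_pr : Primrec (XP D) := by
  have h : Primrec (x0 D) :=
    Primrec.list_cons.comp (Primrec.const 0) (D.po_pr.comp Primrec.id (Primrec.const _))
  exact Primrec.list_cons.comp h (YP_pr D)

end Lists

/-- The reduction: computable `k, X, Y` such that an undecidable predicate gives a finite solution
and its negation excludes every solution. -/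
theorem reduction_fin : ∃ (k : ℕ → ℕ) (X Y : ℕ → List (List ℕ)) (P : ℕ → Prop),
    Computable k ∧ Computable X ∧ Computable Y ∧ ¬ ComputablePred P ∧
    (∀ n, ∀ w ∈ X n, w ≠ [] ∧ ∀ a ∈ w, a < k n) ∧
    (∀ n, ∀ w ∈ Y n, w ≠ [] ∧ ∀ a ∈ w, a < k n) ∧
    (∀ n, P n → ∃ Z : Set (List ℕ), Z.Finite ∧ Z.Nonempty ∧ (∀ z ∈ Z, ∀ a ∈ z, a < k n) ∧
      {w | ∃ x ∈ X n, ∃ z ∈ Z, w = x ++ z} = {w | ∃ z ∈ Z, ∃ y ∈ Y n, w = z ++ y}) ∧
    (∀ n, ¬ P n → ∀ Z : Set (List ℕ), Z.Nonempty →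
      (∀ x ∈ X n, ∀ z ∈ Z, ∃ z' ∈ Z, ∃ y ∈ Y n, x ++ z = z' ++ y) → False) := by
  obtain ⟨Q, hQ, M, q0, N, _, hN, hund⟩ := exists_sys
  obtain ⟨nK, ⟨e⟩⟩ := Finite.exists_equiv_fin (Q × (Bool → Fin M.B))
  let D := datOf M q0 e
  refine ⟨fun n => D.kn (N n), fun n => XP D (N n), fun n => YP D (N n),
    fun n => M.Halts (some q0) (ini (N n)), D.kn_pr.to_comp.comp hN, (XP_pr D).to_comp.comp hN,
    (YP_pr D).to_comp.comp hN, hund, fun n w h => letters_XP D _ w h,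
    fun n w h => letters_YP D _ w h, ?_, ?_⟩
  · intro n hP
    exact exists_finite_solution D (N n) (fun hr => not_halts_of_run M q0 e _ hr hP)
  · intro n hP Z hne hZ
    exact no_solution_pad D (N n) (run_of_not_halts M q0 e _ hP) Z hne hZ

end Pool.Agent.H34Z.Conj
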